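import Pool.Agent.Q99.BC.Build

set_option autoImplicit false

/-!
# MP_c4e285_co: `B + c + A_i` may contain no translate of a Bohr set, for all `c` and all `i`

Q1 is answered in the negative, in a strong form: in a countable abelian group of exponent two
there are a set `B` of upper Banach density as close to `1/2` as we like and a partition in TWO
cells `A₀, A₁` such that, for every element `c` and every `i`, the set `B + c + A_i` contains not
even a translate of a Bohr set.
-/

namespace Pool.Agent.Results.MP_c4e285_co.NoTranslateEither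

open Filter Topology Pointwise

universe u

noncomputable section

/-- A Følner sequence of finite nonempty sets: `|(g + F n) ∆ F n| / |F n| → 0` for every `g`. -/
def IsFolner {G : Type u} [AddCommGroup G] (F : ℕ → Finset G) : Prop :=
  (∀ n, (F n).Nonempty) ∧ ∀ g : G, Tendsto
    (fun n => ((symmDiff ((fun x => g + x) '' (F n : Set G)) (F n : Set G)).ncard : ℝ) /
      ((F n).card : ℝ)) atTop (𝓝 0)

open Classical in
/-- The upper Banach density: the supremum, over all Følner sequences `(F n)`, of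
`limsup |A ∩ F n| / |F n|`. -/
def upperBanachDensity {G : Type u} [AddCommGroup G] (A : Set G) : ℝ :=
  sSup {d : ℝ | ∃ F : ℕ → Finset G, IsFolner F ∧
    d = limsup (fun n => (((F n).filter fun x => x ∈ A).card : ℝ) / ((F n).card : ℝ)) atTop}

/-- The Bohr set `Bohr(χ₁, …, χ_k; η)`. -/
def bohr {G : Type u} [AddCommGroup G] {k : ℕ} (χ : Fin k → AddChar G Circle) (η : ℝ) : Set G :=
  {g | ∀ j, ‖((χ j g : Circle) : ℂ) - 1‖ < η}

/-- `S` contains a Bohr set. -/
def ContainsBohr {G : Type u} [AddCommGroup G] (S : Set G) : Prop :=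
  ∃ (k : ℕ) (χ : Fin k → AddChar G Circle) (η : ℝ), 0 < η ∧ bohr χ η ⊆ S

/-- `S` contains a translate of a Bohr set. -/
def ContainsBohrTranslate {G : Type u} [AddCommGroup G] (S : Set G) : Prop :=
  ∃ (k : ℕ) (χ : Fin k → AddChar G Circle) (η : ℝ) (y : G), 0 < η ∧ ∀ g ∈ bohr χ η, y + g ∈ S

/-- The positive form of Q1. -/
def QuestionOne : Prop :=
  ∀ (G : Type) [AddCommGroup G] [Countable G] (B C : Set G),
    0 < upperBanachDensity B → 0 < upperBanachDensity C →
    ∀ (r : ℕ) (A : Fin r → Set G), 1 ≤ r → Pairwise (fun i j => Disjoint (A i) (A j)) →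
      (⋃ i, A i) = Set.univ → ∃ c ∈ C, ∃ i, ContainsBohr (B + {c} + A i)

theorem ratio_le {G : Type u} (A : Set G) (F : Finset G) [DecidablePred fun x => x ∈ A] :
    ((F.filter fun x => x ∈ A).card : ℝ) / (F.card : ℝ) ≤ 1 := by
  apply div_le_one_of_le₀ _ (Nat.cast_nonneg _)
  exact_mod_cast Finset.card_filter_le _ _

theorem le_density {G : Type u} [AddCommGroup G] (A : Set G) (F : ℕ → Finset G)
    (hF : IsFolner F) (δ : ℝ) (E : ℕ → Finset G) (hE : ∀ n, E n ⊆ F n) (hA : ∀ n, ∀ x ∈ E n, x ∈ A)
    (h : ∀ n, δ * ((F n).card : ℝ) ≤ ((E n).card : ℝ)) : δ ≤ upperBanachDensity A := by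
  classical
  have hb : BddAbove {d : ℝ | ∃ F : ℕ → Finset G, IsFolner F ∧
      d = limsup (fun n => (((F n).filter fun x => x ∈ A).card : ℝ) / ((F n).card : ℝ)) atTop} := by
    refine ⟨1, ?_⟩
    rintro d ⟨F, _, rfl⟩
    apply limsup_le_of_le
    · refine ⟨0, fun a ha => ?_⟩
      rw [eventually_map] at ha
      obtain ⟨n, hn⟩ := ha.exists
      exact le_trans (by positivity) hn
    · exact Eventually.of_forall fun n => ratio_le A _
  refine le_trans ?_ (le_csSup hb ⟨F, hF, rfl⟩)
  apply le_limsup_of_frequently_le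
  · apply Frequently.of_forall
    intro n
    have hpos : (0 : ℝ) < ((F n).card : ℝ) := by exact_mod_cast (hF.1 n).card_pos
    rw [le_div_iff₀ hpos]
    refine (h n).trans ?_
    have : (E n).card ≤ ((F n).filter fun x => x ∈ A).card := by
      apply Finset.card_le_card
      intro x hx
      exact Finset.mem_filter.2 ⟨hE n hx, hA n x hx⟩
    exact_mod_cast this
  · exact ⟨1, eventually_map.2 (Eventually.of_forall fun n => ratio_le A _)⟩

open Pool.Agent.Q99.BC

/-- the Følner sequence of finite subgroups -/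
def FF (n : ℕ → ℕ) (K : ℕ) : Finset (GG n) := (Finset.range (K + 1)).dfinsupp fun _ => Finset.univ

theorem mem_FF {n : ℕ → ℕ} {K : ℕ} {g : GG n} : g ∈ FF n K ↔ ∀ j, K < j → g j = 0 := by
  rw [FF, Finset.mem_dfinsupp_iff]
  constructor
  · rintro ⟨h, _⟩ j hj
    by_contra hne
    have := h (DFinsupp.mem_support_iff.2 hne)
    rw [Finset.mem_range] at this
    omega
  · intro h
    refine ⟨?_, fun _ _ => Finset.mem_univ _⟩
    intro j hj
    rw [DFinsupp.mem_support_iff] at hj
    rw [Finset.mem_range]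
    by_contra hc
    exact hj (h j (by omega))

theorem card_FF (n : ℕ → ℕ) (K : ℕ) : (FF n K).card = ∏ j ∈ Finset.range (K + 1), 2 ^ n j := by
  rw [FF, Finset.card_dfinsupp]
  apply Finset.prod_congr rfl
  intro j _
  rw [Finset.card_univ, Fintype.card_fun, ZMod.card, Fintype.card_fin]

theorem exists_supp {n : ℕ → ℕ} (g : GG n) : ∃ K, ∀ j, K ≤ j → g j = 0 := by
  refine ⟨g.support.sup id + 1, fun j hj => ?_⟩
  by_contra hne
  have := Finset.le_sup (f := id) (DFinsupp.mem_support_iff.2 hne)
  simp only [id] at this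
  omega

theorem folner_FF (n : ℕ → ℕ) : IsFolner (FF n) := by
  refine ⟨fun K => ⟨0, mem_FF.2 fun j _ => rfl⟩, ?_⟩
  intro g
  obtain ⟨K0, hK0⟩ := exists_supp g
  apply tendsto_const_nhds.congr'
  filter_upwards [eventually_ge_atTop K0] with K hK
  have hg : g ∈ FF n K := mem_FF.2 fun j hj => hK0 j (by omega)
  have himg : (fun x => g + x) '' (FF n K : Set (GG n)) = (FF n K : Set (GG n)) := by
    ext x
    rw [Set.mem_image]
    constructor
    · rintro ⟨y, hy, rfl⟩
      rw [Finset.mem_coe, mem_FF] at hy ⊢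
      rw [mem_FF] at hg
      intro j hj
      rw [DFinsupp.add_apply, hy j hj, hg j hj, add_zero]
    · intro hx
      refine ⟨g + x, ?_, ?_⟩
      · rw [Finset.mem_coe, mem_FF] at hx ⊢
        rw [mem_FF] at hg
        intro j hj
        rw [DFinsupp.add_apply, hx j hj, hg j hj, add_zero]
      · show g + (g + x) = x
        rw [← add_assoc, gadd_self, zero_add]
  rw [himg, symmDiff_self]
  simp

theorem main (δ : ℝ) (hδ : δ < 1 / 2) : ∃ (n : ℕ → ℕ) (B : Set (GG n)) (X : Bool → Set (GG n)),
    δ < upperBanachDensity B ∧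
    (∀ x ∈ X true, ∀ z ∈ X false, ∀ b ∈ B, ∀ b' ∈ B, b + x ≠ b' + z) ∧
    ∀ (s : Bool) (g : GG n) (k : ℕ) (χ : Fin k → AddChar (GG n) Circle),
      ∃ x ∈ X s, ∀ j, χ j (x - g) = 1 := by
  classical
  set ε : ℝ := (1 / 2 - δ) / 2 with hε
  have hε0 : 0 < ε := by rw [hε]; linarith
  choose N hN1 hN2 using fun k : ℕ => exists_cube k (ε / 2 ^ k) (by positivity)
  let n : ℕ → ℕ := fun k => match k with
    | 0 => 1
    | k + 1 => N (k + 1)
  let m : ℕ → ℕ := fun k => match k with
    | 0 => 0
    | k + 1 => k + 1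
  have hm : ∀ k, m k < n k := by
    intro k
    cases k with
    | zero => exact Nat.zero_lt_one
    | succ k => exact hN1 (k + 1)
  have : Countable (GG n) := by
    have hU : (Set.univ : Set (GG n)) = ⋃ K, ((FF n K : Finset (GG n)) : Set (GG n)) := by
      symm
      rw [Set.eq_univ_iff_forall]
      intro g
      obtain ⟨K, hK⟩ := exists_supp g
      exact Set.mem_iUnion.2 ⟨K, mem_FF.2 fun j hj => hK j hj.le⟩
    rw [← Set.countable_univ_iff, hU]
    exact Set.countable_iUnion fun K => (FF n K).countable_toSet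
  obtain ⟨e, he⟩ := exists_surjective_nat (Bool × GG n)
  let side : ℕ → Bool := fun K => (e (Nat.unpair K).1).1
  let c : ℕ → GG n := fun K => if ∀ j, K < j → (e (Nat.unpair K).1).2 j = 0 then
    (e (Nat.unpair K).1).2 else 0
  have hc : ∀ K j, K < j → c K j = 0 := by
    intro K j hj
    by_cases h : ∀ j, K < j → (e (Nat.unpair K).1).2 j = 0
    · simp only [c, if_pos h]
      exact h j hj
    · simp only [c, if_neg h]
      rfl
  refine ⟨n, ⋃ K, ((EF n m side c K : Finset (GG n)) : Set (GG n)),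
    fun s => ⋃ K, XL n m side c s K, ?_, ?_, ?_⟩
  · have hsub : ∀ K, EF n m side c K ⊆ FF n K := fun K g hg => mem_FF.2 (EF_supp hc K g hg)
    have hcount : ∀ K, (1 / 2 - ε * (1 - 1 / 2 ^ K)) * ((FF n K).card : ℝ) ≤
        ((EF n m side c K).card : ℝ) := by
      intro K
      induction K with
      | zero =>
        rw [card_FF]
        simp [EF, n]
      | succ K ih =>
        rw [EF_card hm hc, card_FF, Finset.prod_range_succ, ← card_FF]
        push_cast
        have h1 : (1 - ε / 2 ^ (K + 1)) * (2 : ℝ) ^ n (K + 1) ≤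
            2 * ((Lo (n (K + 1)) (m (K + 1))).card : ℝ) := hN2 (K + 1)
        have h2 : ((EF n m side c K).card : ℝ) ≤ ((FF n K).card : ℝ) := by
          exact_mod_cast Finset.card_le_card (hsub K)
        have h3 : (0 : ℝ) < 2 ^ n (K + 1) := by positivity
        have h4 : (0 : ℝ) ≤ ((EF n m side c K).card : ℝ) := Nat.cast_nonneg _
        have h5 : 0 ≤ ε / 2 ^ (K + 1) := by positivity
        calc (1 / 2 - ε * (1 - 1 / 2 ^ (K + 1))) * (((FF n K).card : ℝ) * 2 ^ n (K + 1))
            = ((1 / 2 - ε * (1 - 1 / 2 ^ K)) * ((FF n K).card : ℝ) -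
                ε / 2 ^ (K + 1) * ((FF n K).card : ℝ)) * 2 ^ n (K + 1) := by
              rw [pow_succ]; field_simp; ring
          _ ≤ (((EF n m side c K).card : ℝ) - ε / 2 ^ (K + 1) * ((EF n m side c K).card : ℝ)) *
                2 ^ n (K + 1) := by
              apply mul_le_mul_of_nonneg_right _ h3.le
              nlinarith [mul_le_mul_of_nonneg_left h2 h5]
          _ = ((EF n m side c K).card : ℝ) * ((1 - ε / 2 ^ (K + 1)) * 2 ^ n (K + 1)) := by ring
          _ ≤ _ := mul_le_mul_of_nonneg_left h1 h4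
    have h := le_density (⋃ K, ((EF n m side c K : Finset (GG n)) : Set (GG n))) (FF n)
      (folner_FF n) (1 / 2 - ε) (EF n m side c) hsub
      (fun K x hx => Set.mem_iUnion.2 ⟨K, hx⟩) (fun K => by
        refine le_trans ?_ (hcount K)
        apply mul_le_mul_of_nonneg_right _ (Nat.cast_nonneg _)
        have : (0 : ℝ) < 1 / 2 ^ K := by positivity
        nlinarith)
    refine lt_of_lt_of_le ?_ h
    rw [hε]; linarith
  · intro x hx z hz b hb b' hb'
    obtain ⟨K1, h1⟩ := Set.mem_iUnion.1 hx
    obtain ⟨K2, h2⟩ := Set.mem_iUnion.1 hz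
    obtain ⟨K3, h3⟩ := Set.mem_iUnion.1 hb
    obtain ⟨K4, h4⟩ := Set.mem_iUnion.1 hb'
    have hK : ∀ i ∈ ({K1, K2, K3, K4} : Finset ℕ), i ≤ K1 + K2 + K3 + K4 := by
      intro i hi
      simp only [Finset.mem_insert, Finset.mem_singleton] at hi
      omega
    exact avoid (n := n) (m := m) Nat.zero_lt_one hc (K1 + K2 + K3 + K4) x
      (XL_mono _ (hK K1 (by simp)) h1) z (XL_mono _ (hK K2 (by simp)) h2) b
      (EF_mono' hm (hK K3 (by simp)) h3) b' (EF_mono' hm (hK K4 (by simp)) h4)
  · intro s g k χ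
    obtain ⟨j, hj⟩ := he (s, g)
    obtain ⟨K0, hK0⟩ := exists_supp g
    set K := Nat.pair j (max K0 k) with hK
    have hKge : max K0 k ≤ K := Nat.right_le_pair _ _
    have hKu : (Nat.unpair K).1 = j := by rw [hK, Nat.unpair_pair]
    have hside : side K = s := by simp only [side, hKu, hj]
    have hcK : c K = g := by
      have hcond : ∀ i, K < i → (e (Nat.unpair K).1).2 i = 0 := by
        intro i hi
        rw [hKu, hj]
        exact hK0 i (le_trans (le_max_left _ _) (hKge.trans hi.le))
      simp only [c, if_pos hcond, hKu, hj]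
    have hkm : k ≤ m (K + 1) := by
      show k ≤ K + 1
      exact (le_max_right K0 k).trans (hKge.trans (Nat.le_succ K))
    obtain ⟨h, hh, hχ⟩ := exists_hi hkm fun i =>
      (χ i).compAddMonoidHom (DFinsupp.singleAddHom (fun k => Cu (n k)) (K + 1))
    refine ⟨c K + DFinsupp.single (K + 1) h, Set.mem_iUnion.2 ⟨K + 1, Or.inr ⟨hside, h, hh, rfl⟩⟩,
      fun i => ?_⟩
    rw [hcK, add_sub_cancel_left]
    exact hχ i

/-- **Negative answer to Q1, in a strong form.**  First, Q1 is false.  Second, for every `δ < 1/2`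
there are a countable abelian group `G` of exponent two, a set `B ⊆ G` of upper Banach density
larger than `δ` and a partition of `G` in two cells `A 0`, `A 1` such that for every `c ∈ G` and
every `i` the set `B + c + A i` contains no translate of a Bohr set. -/
theorem result : ¬ QuestionOne ∧
    ∀ δ : ℝ, δ < 1 / 2 → ∃ (G : Type) (_ : AddCommGroup G), Countable G ∧ (∀ g : G, g + g = 0) ∧
      ∃ (B : Set G) (A : Fin 2 → Set G), δ < upperBanachDensity B ∧
        Pairwise (fun i j => Disjoint (A i) (A j)) ∧ (⋃ i, A i) = Set.univ ∧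
        ∀ (c : G) (i : Fin 2), ¬ ContainsBohrTranslate (B + {c} + A i) := by
  have key : ∀ δ : ℝ, δ < 1 / 2 → ∃ (G : Type) (_ : AddCommGroup G), Countable G ∧
      (∀ g : G, g + g = 0) ∧ 1 ≤ upperBanachDensity (Set.univ : Set G) ∧
      ∃ (B : Set G) (A : Fin 2 → Set G), δ < upperBanachDensity B ∧
        Pairwise (fun i j => Disjoint (A i) (A j)) ∧ (⋃ i, A i) = Set.univ ∧
        ∀ (c : G) (i : Fin 2), ¬ ContainsBohrTranslate (B + {c} + A i) := by
    intro δ hδ
    obtain ⟨n, B, X, hB, hX, hD⟩ := main δ hδ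
    have hcount : Countable (GG n) := by
      have hU : (Set.univ : Set (GG n)) = ⋃ K, ((FF n K : Finset (GG n)) : Set (GG n)) := by
        symm
        rw [Set.eq_univ_iff_forall]
        intro g
        obtain ⟨K, hK⟩ := exists_supp g
        exact Set.mem_iUnion.2 ⟨K, mem_FF.2 fun j hj => hK j hj.le⟩
      rw [← Set.countable_univ_iff, hU]
      exact Set.countable_iUnion fun K => (FF n K).countable_toSet
    refine ⟨GG n, inferInstance, hcount, gadd_self n, ?_, B,
      ![{a | ∃ b ∈ B, ∃ x ∈ X true, a + b = x}, {a | ∃ b ∈ B, ∃ x ∈ X true, a + b = x}ᶜ],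
      hB, ?_, ?_, ?_⟩
    · exact le_density _ (FF n) (folner_FF n) 1 (FF n) (fun _ => subset_rfl)
        (fun _ _ _ => Set.mem_univ _) (fun _ => by rw [one_mul])
    · intro i j hij
      fin_cases i <;> fin_cases j
      · exact absurd rfl hij
      · exact disjoint_compl_right
      · exact disjoint_compl_left
      · exact absurd rfl hij
    · rw [Set.eq_univ_iff_forall]
      intro g
      rw [Set.mem_iUnion]
      by_cases h : ∃ b ∈ B, ∃ x ∈ X true, g + b = x
      · exact ⟨0, h⟩
      · exact ⟨1, h⟩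
    · -- each of the two sumsets misses a Bohr dense set
      have hmiss : ∀ (i : Fin 2), ∃ s : Bool, ∀ x ∈ X s, ∀ b ∈ B,
          ∀ a ∈ (![{a | ∃ b ∈ B, ∃ x ∈ X true, a + b = x},
            {a | ∃ b ∈ B, ∃ x ∈ X true, a + b = x}ᶜ] : Fin 2 → Set (GG n)) i, b + a ≠ x := by
        intro i
        fin_cases i
        · refine ⟨false, ?_⟩
          rintro z hz b' hb' a ⟨b, hb, x, hx, hab⟩ h
          apply hX x hx z hz b' hb' b hb
          rw [← h, ← hab]
          abel
        · refine ⟨true, ?_⟩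
          rintro x hx b hb a ha h
          apply ha
          exact ⟨b, hb, x, hx, by rw [← h, add_comm]⟩
      intro c i hcon
      obtain ⟨s, hs⟩ := hmiss i
      obtain ⟨k, χ, η, y, hη, hsub⟩ := hcon
      obtain ⟨x, hx, hxχ⟩ := hD s (y - c) k χ
      have h1 : x - (y - c) ∈ bohr χ η := by
        intro j
        rw [hxχ j]
        simpa using hη
      have h2 := hsub _ h1
      rw [Set.mem_add] at h2
      obtain ⟨w, hw, a, ha, hwa⟩ := h2
      rw [Set.mem_add] at hw
      obtain ⟨b, hb, c', hc', hbc⟩ := hw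
      rw [Set.mem_singleton_iff] at hc'
      apply hs x hx b hb a ha
      have h3 : b + c + a = c + x := by
        rw [← hc', hbc, hwa, hc']; abel
      have h4 : c + (b + a) = c + x := by rw [← h3]; abel
      exact add_left_cancel h4
  constructor
  · intro hQ
    obtain ⟨G, hG, hcount, _, huniv, B, A, hB, hdis, hcov, hno⟩ := key 0 (by norm_num)
    have := hcount
    obtain ⟨c, _, i, k, χ, η, hη, hsub⟩ := hQ G B Set.univ hB (lt_of_lt_of_le one_pos huniv) 2 A
      (by norm_num) hdis hcov
    exact hno c i ⟨k, χ, η, 0, hη, fun g hg => by rw [zero_add]; exact hsub hg⟩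
  · intro δ hδ
    obtain ⟨G, hG, hcount, h2, _, B, A, hB, hdis, hcov, hno⟩ := key δ hδ
    exact ⟨G, hG, hcount, h2, B, A, hB, hdis, hcov, hno⟩

end

end Pool.Agent.Results.MP_c4e285_co.NoTranslateEither
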